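import Mathlib
import Pool.Agent.H85.SelIndepDefs

/-!
# Martin's axiom and Corson compacta of weight `ℵ₁`

Under `MA_{ℵ₁}`: if `K ⊆ ℝ^ι`, `#ι ≤ ℵ₁`, is compact and all its points have countable support,
then for every family of at most `ℵ₁` points of `K` there is `g : ι → ℕ` which is finite-to-one on
`{i | ε < |d i|}` for all `ε > 0` and all points `d` of the family.
-/

set_option autoImplicit false

open Set Filter Topology Cardinal
open Pool.Agent.H85.Sel

namespace Pool.Agent.H41.SemiEbMA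

variable {ι J : Type}

/-- Conditions: a finite partial function `g` with domain `dom`, and a finite set of promises. -/
structure Cond (d : J → ι → ℝ) where
  /-- the domain of the partial function -/
  dom : Finset ι
  /-- the values (only the values on `dom` matter) -/
  g : ι → ℕ
  /-- the promises -/
  F : Finset (J × ℕ)

variable {d : J → ι → ℝ}

/-- The extension relation. -/
def Cond.Ext (q p : Cond d) : Prop :=
  p.dom ⊆ q.dom ∧ (∀ i ∈ p.dom, q.g i = p.g i) ∧ p.F ⊆ q.F ∧
    ∀ a ∈ p.F, ∀ i ∈ q.dom, i ∉ p.dom → q.g i ≤ a.2 → |d a.1 i| ≤ 1 / ((a.2 : ℝ) + 1)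

instance : Preorder (Cond d) where
  le q p := q.Ext p
  le_refl p := ⟨Finset.Subset.refl _, fun _ _ => rfl, Finset.Subset.refl _,
    fun a _ i hi hi' => absurd hi hi'⟩
  le_trans r q p hrq hqp := by
    obtain ⟨h1, h2, h3, h4⟩ := hrq
    obtain ⟨k1, k2, k3, k4⟩ := hqp
    refine ⟨k1.trans h1, fun i hi => (h2 i (k1 hi)).trans (k2 i hi), k3.trans h3, ?_⟩
    intro a ha i hi hi' hle
    by_cases hq : i ∈ q.dom
    · exact k4 a ha i hq hi' ((h2 i hq) ▸ hle)
    · exact h4 a (k3 ha) i hi hq hle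

theorem Cond.le_iff {q p : Cond d} : q ≤ p ↔ q.Ext p := Iff.rfl

/-- An ultrafilter on an uncountable type all of whose members are uncountable. -/
theorem exists_ultrafilter_uncountable (α : Type) [Uncountable α] :
    ∃ U : Ultrafilter α, ∀ s : Set α, s.Countable → ∀ᶠ x in (U : Filter α), x ∉ s := by
  have hne : (cocountable : Filter α).NeBot := by
    constructor
    intro h
    have : (∅ : Set α) ∈ (cocountable : Filter α) := by rw [h]; exact mem_bot
    rw [mem_cocountable, compl_empty] at this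
    exact not_countable_univ this
  refine ⟨Ultrafilter.of cocountable, fun s hs => ?_⟩
  have h1 : sᶜ ∈ (cocountable : Filter α) := by
    rw [mem_cocountable, compl_compl]; exact hs
  exact Ultrafilter.of_le _ h1

/-- The maximal root argument (a weak form of the `Δ`-system lemma). -/
theorem exists_root {α : Type*} {ι : Type*} (A : Set α) (hA : ¬ A.Countable)
    (D : α → Finset ι) (N : ℕ) (hN : ∀ p ∈ A, (D p).card ≤ N) :
    ∃ R : Finset ι, ¬ {p ∈ A | R ⊆ D p}.Countable ∧
      ∀ i ∉ R, {p ∈ A | R ⊆ D p ∧ i ∈ D p}.Countable := by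
  classical
  -- the possible sizes of `R`
  let Q : ℕ → Prop := fun k => ∃ R : Finset ι, R.card = k ∧ ¬ {p ∈ A | R ⊆ D p}.Countable
  have hQ0 : Q 0 := ⟨∅, rfl, by simpa using hA⟩
  have hQle : ∀ k, Q k → k ≤ N := by
    rintro k ⟨R, rfl, hR⟩
    have hne : {p ∈ A | R ⊆ D p}.Nonempty := by
      by_contra h
      rw [not_nonempty_iff_eq_empty] at h
      rw [h] at hR
      exact hR countable_empty
    obtain ⟨p, hp, hRp⟩ := hne
    exact (Finset.card_le_card hRp).trans (hN p hp)
  obtain ⟨k, hk, hmax⟩ : ∃ k, Q k ∧ ∀ k', Q k' → k' ≤ k := by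
    have := Nat.findGreatest_spec (P := Q) (n := N) (Nat.zero_le N) hQ0
    refine ⟨Nat.findGreatest Q N, this, fun k' hk' => Nat.le_findGreatest (hQle k' hk') hk'⟩
  obtain ⟨R, hRk, hR⟩ := hk
  refine ⟨R, hR, fun i hi => ?_⟩
  by_contra hc
  have h1 : Q (k + 1) := by
    refine ⟨insert i R, by rw [Finset.card_insert_of_notMem hi, hRk], ?_⟩
    have : {p ∈ A | insert i R ⊆ D p} = {p ∈ A | R ⊆ D p ∧ i ∈ D p} := by
      ext p
      simp only [Set.mem_ofPred_eq, Finset.insert_subset_iff]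
      tauto
    rw [this]
    exact hc
  have := hmax _ h1
  omega

/-- The forcing notion is ccc. -/
theorem posetCCC (K : Set (ι → ℝ)) (hK : IsCompact K)
    (hcount : ∀ x ∈ K, {i | x i ≠ 0}.Countable) (hd : ∀ j, d j ∈ K) : PosetCCC (Cond d) := by
  classical
  intro A hA
  by_contra hAc
  -- bound the sizes
  have hbound : ∃ N : ℕ, ¬ {p ∈ A | p.dom.card ≤ N ∧ p.F.card ≤ N ∧ ∀ a ∈ p.F, a.2 ≤ N}.Countable := by
    by_contra h
    push Not at h
    apply hAc
    refine (countable_iUnion h).mono fun p hp => ?_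
    rw [mem_iUnion]
    refine ⟨p.dom.card + p.F.card + p.F.sup Prod.snd, hp, by omega, by omega, fun a ha => ?_⟩
    have := Finset.le_sup (f := Prod.snd) ha
    omega
  obtain ⟨N, hN⟩ := hbound
  set A0 : Set (Cond d) := {p ∈ A | p.dom.card ≤ N ∧ p.F.card ≤ N ∧ ∀ a ∈ p.F, a.2 ≤ N} with hA0
  obtain ⟨R, hR, hRmax⟩ := exists_root A0 hN (fun p => p.dom) N (fun p hp => hp.2.1)
  set A1 : Set (Cond d) := {p ∈ A0 | R ⊆ p.dom} with hA1
  -- constant values on the root
  have hconst : ∃ v : R → ℕ, ¬ {p ∈ A1 | ∀ i : R, p.g i = v i}.Countable := by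
    by_contra h
    push Not at h
    apply hR
    refine (countable_iUnion h).mono fun p hp => ?_
    rw [mem_iUnion]
    exact ⟨fun i => p.g i, hp, fun i => rfl⟩
  obtain ⟨v, hv⟩ := hconst
  set A2 : Set (Cond d) := {p ∈ A1 | ∀ i : R, p.g i = v i} with hA2
  have : Uncountable A2 := by
    rw [← not_countable_iff]
    exact fun h => hv h.to_set
  obtain ⟨U, hU⟩ := exists_ultrafilter_uncountable A2
  -- the domains of most conditions avoid countable sets off the root
  have havoid : ∀ C : Set ι, C.Countable → (∀ i ∈ C, i ∉ R) →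
      ∀ᶠ q : A2 in (U : Filter A2), ∀ i ∈ C, i ∉ q.1.dom := by
    intro C hC hCR
    have h1 : (⋃ i ∈ C, {q : A2 | i ∈ q.1.dom}).Countable := by
      refine hC.biUnion fun i hi => ?_
      have h2 := hRmax i (hCR i hi)
      have h3 : ((fun q : A2 => q.1) ⁻¹' {p ∈ A0 | R ⊆ p.dom ∧ i ∈ p.dom}).Countable :=
        h2.preimage_of_injOn Subtype.val_injective.injOn
      exact h3.mono fun q hq => by
        rw [mem_preimage]
        exact (show _ ∧ _ ∧ _ from ⟨q.2.1.1, q.2.1.2, hq⟩)
    filter_upwards [hU _ h1] with q hq i hi hi'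
    exact hq (by rw [mem_iUnion₂]; exact ⟨i, hi, hi'⟩)
  -- incompatibility
  have hinc : ∀ p : A2, ∀ᶠ q : A2 in (U : Filter A2),
      ∃ a ∈ q.1.F, ∃ i ∈ p.1.dom, i ∉ R ∧ 1 / ((N : ℝ) + 1) < |d a.1 i| := by
    intro p
    have hC1 : ((⋃ a ∈ p.1.F, {i | d a.1 i ≠ 0}) \ (R : Set ι)).Countable := by
      refine Countable.mono sdiff_subset ?_
      exact p.1.F.countable_toSet.biUnion fun a _ => hcount _ (hd _)
    have hC2 : ((p.1.dom : Set ι) \ (R : Set ι)).Countable :=
      (p.1.dom.countable_toSet).mono sdiff_subset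
    have e1 := havoid _ hC1 (fun i hi => by simpa using hi.2)
    have e2 := havoid _ hC2 (fun i hi => by simpa using hi.2)
    have e3 := hU {p} (countable_singleton p)
    filter_upwards [e1, e2, e3] with q h1 h2 h3
    by_contra hcon
    push Not at hcon
    have hRp : R ⊆ p.1.dom := p.2.1.2
    have hRq : R ⊆ q.1.dom := q.2.1.2
    have hne : p.1 ≠ q.1 := fun h => h3 (by rw [mem_singleton_iff]; exact (Subtype.ext h).symm)
    apply hA p.2.1.1.1 q.2.1.1.1 hne
    refine ⟨⟨p.1.dom ∪ q.1.dom, fun i => if i ∈ p.1.dom then p.1.g i else q.1.g i,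
      p.1.F ∪ q.1.F⟩, ?_, ?_⟩
    · refine ⟨Finset.subset_union_left, fun i hi => by simp [hi], Finset.subset_union_left, ?_⟩
      intro a ha i hi hi' _
      have hiq : i ∈ q.1.dom := by
        rcases Finset.mem_union.1 hi with h | h
        · exact absurd h hi'
        · exact h
      have hiR : i ∉ R := fun h => hi' (hRp h)
      have : d a.1 i = 0 := by
        by_contra h0
        refine h1 i ⟨?_, by simpa using hiR⟩ hiq
        rw [mem_iUnion₂]
        exact ⟨a, ha, h0⟩
      rw [this, abs_zero]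
      positivity
    · refine ⟨Finset.subset_union_right, fun i hi => ?_, Finset.subset_union_right, ?_⟩
      · by_cases hip : i ∈ p.1.dom
        · have hiR : i ∈ R := by
            by_contra h
            exact h2 i ⟨by simpa using hip, by simpa using h⟩ hi
          simp only [hip, if_true]
          rw [p.2.2 ⟨i, hiR⟩, q.2.2 ⟨i, hiR⟩]
        · simp [hip]
      · intro a ha i hi hi' _
        have hip : i ∈ p.1.dom := by
          rcases Finset.mem_union.1 hi with h | h
          · exact h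
          · exact absurd h hi'
        have hiR : i ∉ R := fun h => hi' (hRq h)
        refine (hcon a ha i hip hiR).trans ?_
        have haN : (a.2 : ℝ) ≤ N := by exact_mod_cast q.2.1.1.2.2.2 a ha
        exact one_div_le_one_div_of_le (by positivity) (by linarith)
  -- enumerate the promises
  obtain ⟨p0⟩ : Nonempty A2 := by
    have : Infinite A2 := inferInstance
    infer_instance
  obtain ⟨q0, a0, -, -⟩ := (hinc p0).exists
  have hJ : Nonempty (J × ℕ) := ⟨a0⟩
  let e : A2 → ℕ → J × ℕ := fun q s => q.1.F.toList.getD s a0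
  have he : ∀ q : A2, ∀ a ∈ q.1.F, ∃ s : Fin N, e q s = a := by
    intro q a ha
    have ha' : a ∈ q.1.F.toList := Finset.mem_toList.2 ha
    obtain ⟨s, hs, hsa⟩ := List.getElem_of_mem ha'
    have hlen : q.1.F.toList.length ≤ N := by
      rw [Finset.length_toList]; exact q.2.1.1.2.2.1
    refine ⟨⟨s, hs.trans_le hlen⟩, ?_⟩
    simp only [e]
    rw [List.getD_eq_getElem _ _ hs, hsa]
  -- limits
  have hlim : ∀ s : ℕ, ∃ x ∈ K, Tendsto (fun q : A2 => d (e q s).1) U (𝓝 x) := by
    intro s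
    have h1 : (U.map (fun q : A2 => d (e q s).1) : Filter (ι → ℝ)) ≤ 𝓟 K := by
      rw [le_principal_iff]
      exact Filter.mem_map.2 (Filter.univ_mem' fun q => hd _)
    obtain ⟨x, hx, hle⟩ := hK.ultrafilter_le_nhds _ h1
    exact ⟨x, hx, hle⟩
  choose x hxK hx using hlim
  -- for every `p` a point of the domain in the support of a limit
  have hpt : ∀ p : A2, ∃ i ∈ p.1.dom, i ∉ R ∧ ∃ s : Fin N, x s i ≠ 0 := by
    intro p
    have h1 : ∀ᶠ q : A2 in (U : Filter A2), ∃ z : {i // i ∈ p.1.dom} × Fin N,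
        z.1.1 ∉ R ∧ 1 / ((N : ℝ) + 1) < |d (e q z.2).1 z.1.1| := by
      filter_upwards [hinc p] with q hq
      obtain ⟨a, ha, i, hi, hiR, hlt⟩ := hq
      obtain ⟨s, hs⟩ := he q a ha
      exact ⟨⟨⟨i, hi⟩, s⟩, hiR, by rw [hs]; exact hlt⟩
    rw [Ultrafilter.eventually_exists_iff] at h1
    obtain ⟨z, hz⟩ := h1
    have hzR : z.1.1 ∉ R := by
      obtain ⟨q, hq⟩ := hz.exists
      exact hq.1
    refine ⟨z.1.1, z.1.2, hzR, z.2, ?_⟩
    have h2 : Tendsto (fun q : A2 => |d (e q z.2).1 z.1.1|) U (𝓝 |x z.2 z.1.1|) :=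
      ((tendsto_pi_nhds.1 (hx z.2)) z.1.1).abs
    have h3 : 1 / ((N : ℝ) + 1) ≤ |x z.2 z.1.1| :=
      ge_of_tendsto h2 (hz.mono fun q hq => hq.2.le)
    have h4 : 0 < |x z.2 z.1.1| := lt_of_lt_of_le (by positivity) h3
    exact abs_pos.1 h4
  choose i hi hiR s hs using hpt
  -- the contradiction
  have hsupp : (⋃ s : Fin N, {i | x s i ≠ 0}).Countable :=
    countable_iUnion fun s => hcount _ (hxK _)
  have h5 : (⋃ j ∈ (⋃ s : Fin N, {i | x s i ≠ 0}) \ (R : Set ι), {q : A2 | j ∈ q.1.dom}).Countable := by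
    refine (hsupp.mono sdiff_subset).biUnion fun j hj => ?_
    have h2 := hRmax j (by simpa using hj.2)
    have h3 : ((fun q : A2 => q.1) ⁻¹' {p ∈ A0 | R ⊆ p.dom ∧ j ∈ p.dom}).Countable :=
      h2.preimage_of_injOn Subtype.val_injective.injOn
    exact h3.mono fun q hq => by
        rw [mem_preimage]
        exact (show _ ∧ _ ∧ _ from ⟨q.2.1.1, q.2.1.2, hq⟩)
  refine not_countable_univ (α := A2) (h5.mono fun p _ => ?_)
  rw [mem_iUnion₂]
  exact ⟨i p, ⟨mem_iUnion.2 ⟨s p, hs p⟩, by simpa using hiR p⟩, hi p⟩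

/-- Under `MA_{ℵ₁}` there is `g : ι → ℕ` which is finite-to-one on `{i | ε < |d j i|}` for all `j`
and `ε > 0`. -/
theorem exists_finite_to_one (hMA : MartinAxiomAlephOne) (hι : #ι ≤ ℵ₁) (hJ : #J ≤ ℵ₁)
    (K : Set (ι → ℝ)) (hK : IsCompact K) (hcount : ∀ x ∈ K, {i | x i ≠ 0}.Countable)
    (hd : ∀ j, d j ∈ K) :
    ∃ g : ι → ℕ, ∀ j, ∀ n : ℕ, ∀ ε > 0, {i | g i ≤ n ∧ ε < |d j i|}.Finite := by
  classical
  have hne : Nonempty (Cond d) := ⟨⟨∅, fun _ => 0, ∅⟩⟩
  have hI : #(ι ⊕ (J × ℕ)) ≤ ℵ₁ := by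
    rw [Cardinal.mk_sum, Cardinal.mk_prod]
    simp only [Cardinal.lift_id, Cardinal.mk_nat]
    have h0 : ℵ₀ ≤ ℵ₁ := Cardinal.aleph0_le_aleph 1
    refine (add_le_add hι (mul_le_mul' hJ h0)).trans ?_
    rw [Cardinal.mul_eq_self h0, Cardinal.add_eq_self h0]
  obtain ⟨G, hGne, hGup, hGdir, hG⟩ := hMA (Cond d) (posetCCC K hK hcount hd) (ι ⊕ (J × ℕ)) hI
    (fun z => match z with
      | Sum.inl i => {q | i ∈ q.dom}
      | Sum.inr a => {q | a ∈ q.F}) (by
      rintro (i | a) p
      · by_cases hi : i ∈ p.dom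
        · exact ⟨p, hi, le_refl p⟩
        · refine ⟨⟨insert i p.dom, Function.update p.g i (p.F.sup Prod.snd + 1), p.F⟩,
            Finset.mem_insert_self _ _, Finset.subset_insert _ _, fun j hj => ?_,
            Finset.Subset.refl _, ?_⟩
          · have : j ≠ i := fun h => hi (h ▸ hj)
            simp [this]
          · intro a ha j hj hj' hle
            have hji : j = i := by
              rcases Finset.mem_insert.1 hj with h | h
              · exact h
              · exact absurd h hj'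
            subst hji
            simp only [Function.update_self] at hle
            have := Finset.le_sup (f := Prod.snd) ha
            omega
      · refine ⟨⟨p.dom, p.g, insert a p.F⟩, Finset.mem_insert_self _ _, Finset.Subset.refl _,
          fun _ _ => rfl, Finset.subset_insert _ _, fun _ _ i hi hi' => absurd hi hi'⟩)
  have hGi : ∀ i : ι, ∃ p ∈ G, i ∈ p.dom := fun i => by
    obtain ⟨p, hp, hp'⟩ := hG (Sum.inl i)
    exact ⟨p, hp, hp'⟩
  have hGa : ∀ a : J × ℕ, ∃ p ∈ G, a ∈ p.F := fun a => by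
    obtain ⟨p, hp, hp'⟩ := hG (Sum.inr a)
    exact ⟨p, hp, hp'⟩
  choose c hcG hc using hGi
  have hval : ∀ p ∈ G, ∀ i ∈ p.dom, p.g i = (c i).g i := by
    intro p hp i hi
    obtain ⟨r, -, hrp, hrc⟩ := hGdir p hp (c i) (hcG i)
    rw [← hrp.2.1 i hi, ← hrc.2.1 i (hc i)]
  refine ⟨fun i => (c i).g i, fun j n ε hε => ?_⟩
  obtain ⟨m, hm⟩ := exists_nat_one_div_lt hε
  obtain ⟨p, hpG, hp⟩ := hGa (j, max n m)
  refine p.dom.finite_toSet.subset fun i hi => ?_
  by_contra hip
  obtain ⟨r, hrG, hrp, hrc⟩ := hGdir p hpG (c i) (hcG i)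
  have hir : i ∈ r.dom := hrc.1 (hc i)
  have h1 := hrp.2.2.2 _ hp i hir (by simpa using hip) (by
    rw [hval r hrG i hir]
    exact hi.1.trans (le_max_left _ _))
  have h2 : (1 : ℝ) / (((max n m : ℕ) : ℝ) + 1) ≤ 1 / ((m : ℝ) + 1) := by
    apply one_div_le_one_div_of_le (by positivity)
    have : (m : ℝ) ≤ ((max n m : ℕ) : ℝ) := by exact_mod_cast le_max_right n m
    linarith
  have h3 := hi.2
  linarith

end Pool.Agent.H41.SemiEbMA
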