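import Mathlib

/-!
# Sierpiński's ordering

Let `ι` be a linear order all of whose initial segments are countable and `r : ι → ℝ` injective.
Every uncountable `S ⊆ ι` contains an infinite sequence along which both `ι` and `r` increase.
-/

set_option autoImplicit false

open Set Cardinal

namespace Pool.Agent.H41.SemiEbMA

/-- The index set: the well-order of type `ω₁`. -/
abbrev Om1 : Type := (ℵ₁ : Cardinal.{0}).ord.ToType

theorem mk_Om1 : #Om1 = ℵ₁ := Cardinal.mk_ord_toType _

instance : Uncountable Om1 := by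
  rw [← Cardinal.aleph0_lt_mk_iff, mk_Om1]
  exact Cardinal.aleph0_lt_aleph_one

theorem countable_Iio_Om1 (i : Om1) : (Iio i).Countable := by
  have h : #(Iio i) < #Om1 := Cardinal.mk_Iio_lt i (by rw [mk_Om1]; exact (Ordinal.type_toType _).symm)
  rw [mk_Om1] at h
  rw [← Cardinal.le_aleph0_iff_set_countable]
  exact Cardinal.lt_aleph_one_iff.1 h

/-- An injection of `ω₁` into the reals. -/
theorem exists_real_injection : ∃ r : Om1 → ℝ, Function.Injective r := by
  have h : #Om1 ≤ #ℝ := by
    rw [mk_Om1, Cardinal.mk_real]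
    exact Cardinal.aleph_one_le_continuum
  obtain ⟨f⟩ := (Cardinal.le_def _ _).1 h
  exact ⟨f, f.injective⟩

/-- Every uncountable set contains a sequence along which both orders increase. -/
theorem exists_increasing {ι : Type*} [LinearOrder ι] (hι : ∀ i : ι, (Iio i).Countable)
    {r : ι → ℝ} (hr : Function.Injective r) {S : Set ι} (hS : ¬ S.Countable) :
    ∃ f : ℕ → ι, (∀ n, f n ∈ S) ∧ StrictMono f ∧ StrictMono (fun n => r (f n)) := by
  classical
  set T : Set ι := {i ∈ S | {j ∈ S | r i < r j}.Countable} with hT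
  have hTc : T.Countable := by
    set Q : Set ℚ := {q | {j ∈ S | (q : ℝ) < r j}.Countable} with hQ
    set W : Set ι := ⋃ q ∈ Q, {j ∈ S | (q : ℝ) < r j} with hW
    have hWc : W.Countable := (Set.to_countable Q).biUnion fun q hq => hq
    have hsub : (T \ W).Subsingleton := by
      intro i hi j hj
      by_contra hne
      have hrne : r i ≠ r j := fun h => hne (hr h)
      rcases lt_or_gt_of_ne hrne with h | h
      · obtain ⟨q, hq1, hq2⟩ := exists_rat_btwn h
        refine hj.2 (mem_iUnion₂.2 ⟨q, ?_, hj.1.1, hq2⟩)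
        exact hi.1.2.mono fun k hk => (show _ ∧ _ from ⟨hk.1, hq1.trans hk.2⟩)
      · obtain ⟨q, hq1, hq2⟩ := exists_rat_btwn h
        refine hi.2 (mem_iUnion₂.2 ⟨q, ?_, hi.1.1, hq2⟩)
        exact hj.1.2.mono fun k hk => (show _ ∧ _ from ⟨hk.1, hq1.trans hk.2⟩)
    exact (hWc.union hsub.countable).mono fun i hi => by
      by_cases h : i ∈ W
      · exact Or.inl h
      · exact Or.inr ⟨hi, h⟩
  have hstep : ∀ i : {i // i ∈ S \ T}, ∃ j : {i // i ∈ S \ T}, i.1 < j.1 ∧ r i.1 < r j.1 := by
    rintro ⟨i, hiS, hiT⟩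
    have h1 : ¬ {j ∈ S | r i < r j}.Countable := fun h => hiT ⟨hiS, h⟩
    by_contra hcon
    push Not at hcon
    apply h1
    refine ((hTc.union (hι i)).union (countable_singleton i)).mono ?_
    rintro j ⟨hjS, hj⟩
    by_cases hjT : j ∈ T
    · exact Or.inl (Or.inl hjT)
    · left; right
      rw [mem_Iio]
      by_contra hlt
      have hle : i ≤ j := not_lt.1 hlt
      have hne : i ≠ j := by rintro rfl; exact lt_irrefl _ hj
      exact absurd hj (not_lt.2 (hcon ⟨j, hjS, hjT⟩ (lt_of_le_of_ne hle hne)))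
  have hne : (S \ T).Nonempty := by
    by_contra h
    rw [not_nonempty_iff_eq_empty, sdiff_eq_empty] at h
    exact hS (hTc.mono h)
  obtain ⟨i0, hi0⟩ := hne
  choose nx hnx using hstep
  let f : ℕ → {i // i ∈ S \ T} := fun n => Nat.rec ⟨i0, hi0⟩ (fun _ i => nx i) n
  refine ⟨fun n => (f n).1, fun n => (f n).2.1, strictMono_nat_of_lt_succ fun n => ?_,
    strictMono_nat_of_lt_succ fun n => ?_⟩
  · exact (hnx (f n)).1
  · exact (hnx (f n)).2

end Pool.Agent.H41.SemiEbMA
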