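import Mathlib
import Pool.Agent.Lib.H41.SemiEbMA.Sierp

/-!
# The Banach space of Sierpiński's ordering

`XS` is the closed span, in the bounded functions on the set of signed increasing chains, of the
coordinate functions.  The norm of a finite combination `∑ a i • e i` is the maximum over the
increasing chains `A` of `∑_{i ∈ A} |a i|`.
-/

set_option autoImplicit false

open Set Filter Topology Cardinal

namespace Pool.Agent.H41.SemiEbMA

/-- A fixed injection of `ω₁` into the reals. -/
noncomputable def rr : Om1 → ℝ := Classical.choose exists_real_injection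

theorem rr_injective : Function.Injective rr := Classical.choose_spec exists_real_injection

/-- Signed increasing chains: functions with values in `[-1,1]` on the support of which `rr` is
strictly increasing. -/
def Chain : Type := {c : Om1 → ℝ // (∀ i, |c i| ≤ 1) ∧
  ∀ i j, c i ≠ 0 → c j ≠ 0 → i < j → rr i < rr j}

instance : TopologicalSpace Chain := ⊥

instance : DiscreteTopology Chain := ⟨rfl⟩

/-- Bounded functions on the set of chains. -/
abbrev BF : Type := BoundedContinuousFunction Chain ℝ

/-- The coordinate functions. -/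
noncomputable def eB (i : Om1) : BF :=
  BoundedContinuousFunction.ofNormedAddCommGroupDiscrete (fun c : Chain => c.1 i) 1
    (fun c => c.2.1 i)

@[simp] theorem eB_apply (i : Om1) (c : Chain) : eB i c = c.1 i := rfl

/-- The closed subspace. -/
noncomputable def VS : Submodule ℝ BF := (Submodule.span ℝ (range eB)).topologicalClosure

/-- The Banach space. -/
def XS : Type := VS

noncomputable instance : NormedAddCommGroup XS := inferInstanceAs (NormedAddCommGroup VS)

noncomputable instance : NormedSpace ℝ XS := inferInstanceAs (NormedSpace ℝ VS)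

instance : CompleteSpace XS := by
  have h : IsClosed (VS : Set BF) := Submodule.isClosed_topologicalClosure _
  exact h.completeSpace_coe

/-- The inclusion. -/
noncomputable def valX : XS →ₗᵢ[ℝ] BF := VS.subtypeₗᵢ

theorem norm_valX (x : XS) : ‖valX x‖ = ‖x‖ := valX.norm_map x

/-- The coordinate vectors. -/
noncomputable def eX (i : Om1) : XS :=
  (⟨eB i, Submodule.le_topologicalClosure _ (Submodule.subset_span ⟨i, rfl⟩)⟩ : VS)

@[simp] theorem eX_val (i : Om1) : valX (eX i) = eB i := rfl

theorem norm_eX_le (i : Om1) : ‖eX i‖ ≤ 1 := by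
  rw [← norm_valX, eX_val]
  refine (BoundedContinuousFunction.norm_le zero_le_one).2 fun c => ?_
  exact c.2.1 i

theorem dense_span_eX : Dense (Submodule.span ℝ (range eX) : Set XS) := by
  have hind : IsInducing (valX : XS → BF) := valX.isometry.isUniformInducing.isInducing
  rw [hind.dense_iff]
  intro x
  have h1 : (valX '' (Submodule.span ℝ (range eX) : Set XS) : Set BF)
      = (Submodule.span ℝ (range eB) : Set BF) := by
    have h2 := Submodule.map_span (valX : XS →ₗ[ℝ] BF) (range eX)
    have h3 : (valX : XS →ₗ[ℝ] BF) '' range eX = range eB := by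
      rw [← range_comp]
      rfl
    rw [h3] at h2
    rw [← h2]
    rfl
  rw [h1]
  exact x.2

/-- Evaluation at a chain. -/
noncomputable def evC (c : Chain) : XS →L[ℝ] ℝ :=
  (BoundedContinuousFunction.evalCLM ℝ c).comp valX.toContinuousLinearMap

theorem evC_apply (c : Chain) (x : XS) : evC c x = valX x c := rfl

@[simp] theorem evC_eX (c : Chain) (i : Om1) : evC c (eX i) = c.1 i := rfl

theorem abs_evC_le (c : Chain) (x : XS) : |evC c x| ≤ ‖x‖ := by
  rw [← norm_valX]
  exact BoundedContinuousFunction.norm_coe_le_norm (valX x) c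

/-- Along a sequence which increases in `ω₁` but decreases in the reals the vectors `e i` behave
like the unit vectors of `c₀`. -/
theorem norm_sum_le (u : ℕ → Om1) (hu : StrictMono u) (hr : StrictMono fun n => - rr (u n))
    (a : ℕ → ℝ) (ha : ∀ n, |a n| ≤ 1) (N : ℕ) :
    ‖∑ k ∈ Finset.range N, a k • eX (u k)‖ ≤ 1 := by
  have hval : valX (∑ k ∈ Finset.range N, a k • eX (u k))
      = ∑ k ∈ Finset.range N, a k • eB (u k) := by
    rw [map_sum]
    exact Finset.sum_congr rfl fun k _ => by rw [map_smul, eX_val]
  rw [← norm_valX, hval]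
  refine (BoundedContinuousFunction.norm_le zero_le_one).2 fun c => ?_
  have hsum : (∑ k ∈ Finset.range N, a k • eB (u k)) c
      = ∑ k ∈ Finset.range N, a k * c.1 (u k) := by
    simp
  rw [hsum, Real.norm_eq_abs]
  by_cases h : ∃ k ∈ Finset.range N, c.1 (u k) ≠ 0
  · obtain ⟨k, hk, hck⟩ := h
    rw [Finset.sum_eq_single k]
    · rw [abs_mul]
      exact mul_le_one₀ (ha k) (abs_nonneg _) (c.2.1 _)
    · intro m _ hmk
      by_cases hcm : c.1 (u m) = 0
      · rw [hcm, mul_zero]
      · exfalso
        rcases lt_or_gt_of_ne hmk with h1 | h1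
        · have h2 := c.2.2 _ _ hcm hck (hu h1)
          have h3 := hr h1
          simp only at h3
          linarith
        · have h2 := c.2.2 _ _ hck hcm (hu h1)
          have h3 := hr h1
          simp only at h3
          linarith
    · intro hk'
      exact absurd hk hk'
  · push Not at h
    rw [Finset.sum_eq_zero fun k hk => by rw [h k hk, mul_zero]]
    simp

/-- Every functional vanishes at all but countably many of the vectors `e i`. -/
theorem countable_support (f : XS →L[ℝ] ℝ) : {i | f (eX i) ≠ 0}.Countable := by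
  have hcov : {i | f (eX i) ≠ 0} ⊆ ⋃ n : ℕ, {i | 1 / ((n : ℝ) + 1) < |f (eX i)|} := by
    intro i hi
    obtain ⟨n, hn⟩ := exists_nat_one_div_lt (abs_pos.2 hi)
    exact mem_iUnion.2 ⟨n, hn⟩
  refine (countable_iUnion fun n => ?_).mono hcov
  by_contra hunc
  obtain ⟨u, huS, hu, hr⟩ := exists_increasing countable_Iio_Om1 (r := fun i => - rr i)
    (fun i j h => rr_injective (neg_injective h)) hunc
  obtain ⟨N, hN⟩ := exists_nat_gt (‖f‖ * ((n : ℝ) + 1))
  set a : ℕ → ℝ := fun k => (SignType.sign (f (eX (u k))) : ℝ) with ha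
  have ha1 : ∀ k, |a k| ≤ 1 := by
    intro k
    simp only [ha]
    rcases lt_trichotomy (f (eX (u k))) 0 with h | h | h
    · simp [sign_neg h]
    · simp [h]
    · simp [sign_pos h]
  have h1 := norm_sum_le u hu hr a ha1 N
  have h2 : f (∑ k ∈ Finset.range N, a k • eX (u k))
      = ∑ k ∈ Finset.range N, |f (eX (u k))| := by
    rw [map_sum]
    refine Finset.sum_congr rfl fun k _ => ?_
    rw [map_smul, smul_eq_mul, ha]
    exact sign_mul_self _
  have h3 : (N : ℝ) * (1 / ((n : ℝ) + 1)) ≤ ∑ k ∈ Finset.range N, |f (eX (u k))| := by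
    calc (N : ℝ) * (1 / ((n : ℝ) + 1)) = ∑ k ∈ Finset.range N, (1 / ((n : ℝ) + 1)) := by
          simp
      _ ≤ _ := Finset.sum_le_sum fun k _ => (huS k).le
  have h4 : f (∑ k ∈ Finset.range N, a k • eX (u k)) ≤ ‖f‖ := by
    calc f (∑ k ∈ Finset.range N, a k • eX (u k))
        ≤ ‖f (∑ k ∈ Finset.range N, a k • eX (u k))‖ := le_abs_self _
      _ ≤ ‖f‖ * ‖∑ k ∈ Finset.range N, a k • eX (u k)‖ := f.le_opNorm _
      _ ≤ ‖f‖ * 1 := by gcongr
      _ = ‖f‖ := mul_one _
  rw [h2] at h4
  have h5 : (N : ℝ) * (1 / ((n : ℝ) + 1)) ≤ ‖f‖ := h3.trans h4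
  rw [mul_one_div, div_le_iff₀ (by positivity)] at h5
  linarith

end Pool.Agent.H41.SemiEbMA
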