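import Mathlib
import Pool.Agent.Lib.SemiEb.Final
import Pool.Agent.Lib.H41.SemiEbMA.Poset
import Pool.Agent.Lib.H41.SemiEbMA.Space

/-!
# Under `MA_{ℵ₁}` all dual balls of the space `XS` are semi-Eberlein
-/

set_option autoImplicit false

open Set Filter Topology Cardinal
open Pool.Agent.H85.Sel

namespace Pool.Agent.H41.SemiEbMA

/-- The values of a functional on the coordinate vectors. -/
noncomputable def Phi (f : WeakDual ℝ XS) : Om1 → ℝ := fun i => f (eX i)

theorem continuous_Phi : Continuous Phi :=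
  continuous_pi fun i => WeakDual.eval_continuous (eX i)

theorem Phi_injective : Function.Injective Phi := by
  intro f g hfg
  have h1 : ∀ x ∈ (Submodule.span ℝ (range eX) : Set XS), f x = g x := by
    intro x hx
    induction hx using Submodule.span_induction with
    | mem x hx =>
      obtain ⟨i, rfl⟩ := hx
      exact congrFun hfg i
    | zero => rw [map_zero, map_zero]
    | add x y _ _ hx hy => rw [map_add, map_add, hx, hy]
    | smul a x _ hx => rw [map_smul, map_smul, hx]
  refine DFunLike.ext _ _ fun x => ?_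
  have h2 : (fun x => f x) = fun x => g x :=
    Continuous.ext_on dense_span_eX f.continuous g.continuous h1
  exact congrFun h2 x

theorem countable_support_Phi (f : WeakDual ℝ XS) : {i | Phi f i ≠ 0}.Countable :=
  countable_support (WeakDual.toStrongDual f)

/-- Index set of a dense family. -/
abbrev Jx : Type := Finset (Om1 × ℚ × ℚ)

theorem mk_Jx : #Jx ≤ ℵ₁ := by
  refine (SemiEb.mk_finset_le_max _).trans (max_le ?_ (Cardinal.aleph0_le_aleph 1))
  rw [Cardinal.mk_prod, Cardinal.mk_prod, Cardinal.mkRat]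
  simp only [Cardinal.lift_id]
  have h0 : ℵ₀ ≤ ℵ₁ := Cardinal.aleph0_le_aleph 1
  rw [mk_Om1, Cardinal.aleph0_mul_aleph0]
  calc ℵ₁ * ℵ₀ ≤ ℵ₁ * ℵ₁ := mul_le_mul' le_rfl h0
    _ = ℵ₁ := Cardinal.mul_eq_self h0

/-- A basic box. -/
def Box (j : Jx) : Set (Om1 → ℝ) := {x | ∀ t ∈ j, (t.2.1 : ℝ) < x t.1 ∧ x t.1 < t.2.2}

theorem exists_box (x : Om1 → ℝ) (U : Set (Om1 → ℝ)) (hU : IsOpen U) (hx : x ∈ U) :
    ∃ j : Jx, x ∈ Box j ∧ Box j ⊆ U := by
  classical
  obtain ⟨I, u, hu, hsub⟩ := isOpen_pi_iff.1 hU x hx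
  have h : ∀ i ∈ I, ∃ q : ℚ × ℚ, (q.1 : ℝ) < x i ∧ x i < q.2 ∧ Ioo (q.1 : ℝ) q.2 ⊆ u i := by
    intro i hi
    obtain ⟨a, b, hab, hsub⟩ := mem_nhds_iff_exists_Ioo_subset.1 ((hu i hi).1.mem_nhds (hu i hi).2)
    obtain ⟨q1, h1, h2⟩ := exists_rat_btwn hab.1
    obtain ⟨q2, h3, h4⟩ := exists_rat_btwn hab.2
    exact ⟨(q1, q2), h2, h3, (Ioo_subset_Ioo h1.le h4.le).trans hsub⟩
  choose! q hq1 hq2 hq3 using h
  refine ⟨I.image fun i => (i, q i), ?_, ?_⟩
  · intro t ht
    obtain ⟨i, hi, rfl⟩ := Finset.mem_image.1 ht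
    exact ⟨hq1 i hi, hq2 i hi⟩
  · intro y hy
    refine hsub fun i hi => hq3 i hi ?_
    exact hy (i, q i) (Finset.mem_image_of_mem _ hi)

theorem exists_semiEb (hMA : MartinAxiomAlephOne) (N : Seminorm ℝ XS) (C : ℝ) (hC : 0 < C)
    (hN : ∀ x, N x ≤ C * ‖x‖) :
    ∃ (Γ : Type) (e : SemiEb.dualBall N → (Γ → ℝ)),
      IsEmbedding e ∧ (∀ s γ, e s γ ∈ Icc (0 : ℝ) 1) ∧
      Dense {s : SemiEb.dualBall N | Tendsto (e s) cofinite (𝓝 0)} := by
  classical
  have hcomp : IsCompact (SemiEb.dualBall N) := SemiEb.isCompact_dualBall hC.le hN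
  have : CompactSpace (SemiEb.dualBall N) := isCompact_iff_compactSpace.1 hcomp
  have hzero : (0 : WeakDual ℝ XS) ∈ SemiEb.dualBall N := fun x => by
    change |(0 : ℝ)| ≤ N x
    rw [abs_zero]; exact apply_nonneg N x
  -- the dense family
  have hch : ∀ j : Jx, ∃ s : SemiEb.dualBall N,
      (∃ s' : SemiEb.dualBall N, Phi s' ∈ Box j) → Phi s ∈ Box j := by
    intro j
    by_cases h : ∃ s' : SemiEb.dualBall N, Phi s' ∈ Box j
    · obtain ⟨s', hs'⟩ := h
      exact ⟨s', fun _ => hs'⟩
    · exact ⟨⟨0, hzero⟩, fun h' => absurd h' h⟩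
  choose D hD using hch
  obtain ⟨g, hg⟩ := exists_finite_to_one (ι := Om1) (J := Jx) (d := fun j => Phi (D j)) hMA
    mk_Om1.le mk_Jx (Phi '' SemiEb.dualBall N) (hcomp.image continuous_Phi)
    (by
      rintro _ ⟨f, _, rfl⟩
      exact countable_support_Phi f)
    (fun j => ⟨_, (D j).2, rfl⟩)
  -- the embedding
  have hb : ∀ (s : SemiEb.dualBall N) (i : Om1), |Phi s i| ≤ C := by
    intro s i
    calc |Phi s i| ≤ N (eX i) := s.2 (eX i)
      _ ≤ C * ‖eX i‖ := hN _
      _ ≤ C * 1 := by gcongr; exact norm_eX_le i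
      _ = C := mul_one C
  let sg : Bool → ℝ := fun b => if b then 1 else -1
  let e : SemiEb.dualBall N → (Om1 × Bool → ℝ) := fun s t =>
    max (sg t.2 * Phi s t.1) 0 / (C * ((g t.1 : ℝ) + 1))
  have hsg : ∀ b, |sg b| = 1 := by
    intro b; cases b <;> simp [sg]
  have hmax : ∀ (s : SemiEb.dualBall N) (t : Om1 × Bool),
      max (sg t.2 * Phi s t.1) 0 ≤ |Phi s t.1| := by
    intro s t
    refine max_le ((le_abs_self _).trans ?_) (abs_nonneg _)
    rw [abs_mul, hsg, one_mul]
  have hpos : ∀ i : Om1, 0 < C * ((g i : ℝ) + 1) := fun i => by positivity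
  have he01 : ∀ s t, e s t ∈ Icc (0 : ℝ) 1 := by
    intro s t
    constructor
    · exact div_nonneg (le_max_right _ _) (hpos _).le
    · refine (div_le_one (hpos _)).2 ?_
      refine ((hmax s t).trans (hb s t.1)).trans ?_
      have : (1 : ℝ) ≤ (g t.1 : ℝ) + 1 := by
        have := Nat.cast_nonneg (α := ℝ) (g t.1)
        linarith
      nlinarith
  have hcont : Continuous e := by
    refine continuous_pi fun t => ?_
    refine Continuous.div_const ?_ _
    refine Continuous.max ?_ continuous_const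
    refine continuous_const.mul ?_
    exact ((continuous_apply t.1).comp continuous_Phi).comp continuous_subtype_val
  have hinj : Function.Injective e := by
    intro s s' hss
    apply Subtype.ext
    apply Phi_injective
    funext i
    have h1 := congrFun hss (i, true)
    have h2 := congrFun hss (i, false)
    simp only [e, sg] at h1 h2
    have h1' := (div_left_inj' (hpos i).ne').1 h1
    have h2' := (div_left_inj' (hpos i).ne').1 h2
    simp only [if_true, one_mul, Bool.false_eq_true, if_false, neg_mul] at h1' h2'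
    have key : ∀ a : ℝ, a = max a 0 - max (-a) 0 := by
      intro a
      rcases le_total a 0 with h | h
      · rw [max_eq_right h, max_eq_left (by linarith)]; ring
      · rw [max_eq_left h, max_eq_right (by linarith)]; ring
    rw [key (Phi s i), key (Phi s' i), h1', h2']
  refine ⟨Om1 × Bool, e, (hcont.isClosedEmbedding hinj).isEmbedding, he01, ?_⟩
  -- density
  have hPe : IsInducing fun s : SemiEb.dualBall N => Phi s := by
    have h1 : Continuous fun s : SemiEb.dualBall N => Phi s :=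
      continuous_Phi.comp continuous_subtype_val
    have h2 : Function.Injective fun s : SemiEb.dualBall N => Phi s := fun s s' h =>
      Subtype.ext (Phi_injective h)
    exact (h1.isClosedEmbedding h2).isInducing
  have hdense : Dense (range D) := by
    rw [hPe.dense_iff]
    intro s
    rw [mem_closure_iff]
    intro U hU hsU
    obtain ⟨j, hj1, hj2⟩ := exists_box _ U hU hsU
    exact ⟨Phi (D j), hj2 (hD j ⟨s, hj1⟩), ⟨D j, ⟨j, rfl⟩, rfl⟩⟩
  refine hdense.mono ?_
  rintro _ ⟨j, rfl⟩
  change Tendsto (e (D j)) cofinite (𝓝 0)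
  rw [tendsto_order]
  constructor
  · intro a ha
    exact Filter.Eventually.of_forall fun t => ha.trans_le (he01 _ _).1
  · intro ε hε
    obtain ⟨n, hn⟩ := exists_nat_gt (1 / ε)
    have hfin := hg j n (ε * C / 2) (by positivity)
    rw [eventually_cofinite]
    refine ((hfin.prod (finite_univ : (univ : Set Bool).Finite))).subset ?_
    intro t ht
    have ht' : ε ≤ e (D j) t := not_lt.1 ht
    have h1 : ε * (C * ((g t.1 : ℝ) + 1)) ≤ |Phi (D j) t.1| := by
      have h2 : ε * (C * ((g t.1 : ℝ) + 1)) ≤ max (sg t.2 * Phi (D j) t.1) 0 :=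
        (le_div_iff₀ (hpos _)).1 ht'
      exact h2.trans (hmax _ _)
    have hg0 : (0 : ℝ) ≤ g t.1 := Nat.cast_nonneg _
    have hCε : 0 < ε * C := by positivity
    refine ⟨(show _ ∧ _ from ⟨?_, ?_⟩), mem_univ _⟩
    · have h3 : ε * (C * ((g t.1 : ℝ) + 1)) ≤ C := h1.trans (hb _ _)
      have h4 : ε * ((g t.1 : ℝ) + 1) ≤ 1 := by
        by_contra hcon
        push Not at hcon
        nlinarith
      have h5 : (g t.1 : ℝ) + 1 ≤ 1 / ε := by
        rw [le_div_iff₀ hε]; linarith
      have h6 : (g t.1 : ℝ) < n := by linarith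
      exact_mod_cast h6.le
    · have h7 : ε * C ≤ ε * (C * ((g t.1 : ℝ) + 1)) := by
        have : ε * (C * ((g t.1 : ℝ) + 1)) = ε * C + ε * C * g t.1 := by ring
        rw [this]
        have : 0 ≤ ε * C * g t.1 := by positivity
        linarith
      linarith

end Pool.Agent.H41.SemiEbMA
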