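import Mathlib
import Pool.Agent.Lib.H41.SemiEbMA.Sierp
import Pool.Agent.Lib.H41.SemiEbMA.Space

/-!
# The space `XS` embeds in no weakly compactly generated Banach space
-/

set_option autoImplicit false

open Set Filter Topology Cardinal

namespace Pool.Agent.H41.SemiEbMA

section Blocks

variable {Y : Type} [NormedAddCommGroup Y] [NormedSpace ℝ Y]

/-- Combinations of `n` vectors of `W` with coefficients bounded by `m`. -/
def Blk (W : Set Y) (p : ℕ × ℕ) : Set Y :=
  {y | ∃ (a : Fin p.1 → ℝ) (w : Fin p.1 → Y), (∀ k, |a k| ≤ p.2) ∧ (∀ k, w k ∈ W) ∧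
    ∑ k, a k • w k = y}

theorem exists_mem_Blk (W : Set Y) {y : Y} (hy : y ∈ Submodule.span ℝ W) :
    ∃ p, y ∈ Blk W p := by
  obtain ⟨n, f, g, h⟩ := Submodule.mem_span_set'.1 hy
  obtain ⟨m, hm⟩ := exists_nat_ge (∑ k, |f k|)
  refine ⟨(n, m), f, fun k => (g k : Y), fun k => ?_, fun k => (g k).2, h⟩
  exact (Finset.single_le_sum (f := fun k => |f k|) (fun i _ => abs_nonneg _)
    (Finset.mem_univ k)).trans hm

theorem isCompact_Blk (W : Set Y) (hW : IsCompact (toWeakSpace ℝ Y '' W)) (p : ℕ × ℕ) :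
    IsCompact (toWeakSpace ℝ Y '' Blk W p) := by
  have h1 : IsCompact ((pi univ fun _ : Fin p.1 => Icc (-(p.2 : ℝ)) p.2) ×ˢ
      (pi univ fun _ : Fin p.1 => toWeakSpace ℝ Y '' W)) :=
    (isCompact_univ_pi fun _ => isCompact_Icc).prod (isCompact_univ_pi fun _ => hW)
  have h2 : Continuous fun q : (Fin p.1 → ℝ) × (Fin p.1 → WeakSpace ℝ Y) =>
      ∑ k, q.1 k • q.2 k := by
    refine continuous_finsetSum _ fun k _ => ?_
    exact ((continuous_apply k).comp continuous_fst).smul
      ((continuous_apply k).comp continuous_snd)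
  have h3 := h1.image h2
  refine (Eq.subst ?_ h3 : IsCompact (toWeakSpace ℝ Y '' Blk W p))
  apply Subset.antisymm
  · rintro _ ⟨⟨a, w⟩, ⟨ha, hw⟩, rfl⟩
    have hw' : ∀ k, ∃ v ∈ W, toWeakSpace ℝ Y v = w k := fun k => hw k (mem_univ k)
    choose v hv hvw using hw'
    refine ⟨∑ k, a k • v k, ⟨a, v, fun k => ?_, hv, rfl⟩, ?_⟩
    · exact abs_le.2 (ha k (mem_univ k))
    · rw [map_sum]
      refine Finset.sum_congr rfl fun k _ => ?_
      rw [map_smul, hvw]
  · rintro _ ⟨y, ⟨a, w, ha, hw, rfl⟩, rfl⟩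
    refine ⟨(a, fun k => toWeakSpace ℝ Y (w k)), ⟨fun k _ => abs_le.1 (ha k), fun k _ =>
      ⟨w k, hw k, rfl⟩⟩, ?_⟩
    simp only [map_sum, map_smul]

end Blocks

/-- The tail chain of an increasing sequence. -/
noncomputable def tailChain (u : ℕ → Om1) (hu : StrictMono u)
    (hr : StrictMono fun n => rr (u n)) (k : ℕ) : Chain :=
  ⟨indicator (u '' Ici k) 1, by
    classical
    refine ⟨fun i => ?_, fun i j hi hj hij => ?_⟩
    · by_cases h : i ∈ u '' Ici k
      · rw [indicator_of_mem h]; simp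
      · rw [indicator_of_notMem h]; simp
    · obtain ⟨a, -, rfl⟩ := mem_of_indicator_ne_zero hi
      obtain ⟨b, -, rfl⟩ := mem_of_indicator_ne_zero hj
      exact hr (hu.lt_iff_lt.1 hij)⟩

theorem tailChain_of_le (u : ℕ → Om1) (hu : StrictMono u)
    (hr : StrictMono fun n => rr (u n)) {k n : ℕ} (h : k ≤ n) :
    (tailChain u hu hr k).1 (u n) = 1 := by
  change indicator (u '' Ici k) 1 (u n) = 1
  have hm : u n ∈ u '' Ici k := ⟨n, h, rfl⟩
  rw [indicator_of_mem hm]
  rfl

theorem tailChain_of_lt (u : ℕ → Om1) (hu : StrictMono u)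
    (hr : StrictMono fun n => rr (u n)) {k n : ℕ} (h : n < k) :
    (tailChain u hu hr k).1 (u n) = 0 := by
  change indicator (u '' Ici k) 1 (u n) = 0
  rw [indicator_of_notMem]
  rintro ⟨m, hm, he⟩
  have h1 : m = n := hu.injective he
  rw [mem_Ici, h1] at hm
  omega

variable {Y : Type} [NormedAddCommGroup Y] [NormedSpace ℝ Y]

/-- The space `XS` embeds in no weakly compactly generated space. -/
theorem not_wcg (W : Set Y) (hW : IsCompact (toWeakSpace ℝ Y '' W))
    (hd : Dense (Submodule.span ℝ W : Set Y)) (T : XS →L[ℝ] Y) (c : ℝ) (hc : 0 < c)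
    (hT : ∀ x, c * ‖x‖ ≤ ‖T x‖) : False := by
  classical
  set δ : ℝ := c / 8 with hδ
  have hδ0 : 0 < δ := by positivity
  have h1 : ∀ i : Om1, ∃ y ∈ (Submodule.span ℝ W : Set Y), dist (T (eX i)) y < δ := fun i =>
    hd.exists_dist_lt (T (eX i)) hδ0
  choose y hyW hyd using h1
  have h2 : ∀ i : Om1, ∃ p, y i ∈ Blk W p := fun i => exists_mem_Blk W (hyW i)
  choose P hP using h2
  obtain ⟨p, hp⟩ : ∃ p, ¬ (P ⁻¹' {p}).Countable := by
    by_contra hcon
    push Not at hcon
    have : (univ : Set Om1).Countable := by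
      have h3 : (univ : Set Om1) = ⋃ p, P ⁻¹' {p} := by
        ext i; simp
      rw [h3]
      exact countable_iUnion hcon
    exact not_countable_univ this
  obtain ⟨u, huS, hu, hr⟩ := exists_increasing countable_Iio_Om1 rr_injective hp
  have hzB : ∀ n, y (u n) ∈ Blk W p := fun n => by
    have h3 := hP (u n)
    have h4 : P (u n) = p := huS n
    rwa [h4] at h3
  -- a weak cluster point
  obtain ⟨y', hy'mem, hy'⟩ := (isCompact_Blk W hW p).ultrafilter_le_nhds
    ((hyperfilter ℕ).map fun n => toWeakSpace ℝ Y (y (u n))) (by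
      rw [le_principal_iff]
      change ∀ᶠ n in (hyperfilter ℕ : Filter ℕ), toWeakSpace ℝ Y (y (u n)) ∈ _
      exact Filter.Eventually.of_forall fun n => mem_image_of_mem _ (hzB n))
  obtain ⟨yy, -, rfl⟩ := hy'mem
  have hcl : ∀ k : ℕ, yy ∈ closure (convexHull ℝ ((fun n => y (u n)) '' Ici k)) := by
    intro k
    have h3 : toWeakSpace ℝ Y yy ∈
        closure (toWeakSpace ℝ Y '' convexHull ℝ ((fun n => y (u n)) '' Ici k)) := by
      refine mem_closure_of_tendsto (b := (hyperfilter ℕ : Filter ℕ))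
        (f := fun n => toWeakSpace ℝ Y (y (u n))) hy' ?_
      have h4 : ∀ᶠ n in (hyperfilter ℕ : Filter ℕ), k ≤ n :=
        Nat.hyperfilter_le_atTop (eventually_ge_atTop k)
      filter_upwards [h4] with n hn
      exact mem_image_of_mem _ (subset_convexHull ℝ _ ⟨n, hn, rfl⟩)
    rw [← (convex_convexHull ℝ _).toWeakSpace_closure ℝ] at h3
    obtain ⟨z, hz, hzy⟩ := h3
    rwa [(toWeakSpace ℝ Y).injective hzy] at hz
  -- lift to XS
  have hlift : ∀ k : ℕ, ∃ x ∈ convexHull ℝ ((fun n => eX (u n)) '' Ici k),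
      dist yy (T x) < 2 * δ := by
    intro k
    obtain ⟨b, hb, hyb⟩ := Metric.mem_closure_iff.1 (hcl k) δ hδ0
    have hsub : convexHull ℝ ((fun n => y (u n)) '' Ici k) ⊆
        {b | ∃ x ∈ convexHull ℝ ((fun n => eX (u n)) '' Ici k), dist b (T x) ≤ δ} := by
      refine convexHull_min ?_ ?_
      · rintro _ ⟨n, hn, rfl⟩
        refine ⟨eX (u n), subset_convexHull ℝ _ ⟨n, hn, rfl⟩, ?_⟩
        rw [dist_comm]
        exact (hyd (u n)).le
      · rintro b1 ⟨x1, hx1, hb1⟩ b2 ⟨x2, hx2, hb2⟩ s t hs ht hst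
        refine ⟨s • x1 + t • x2, (convex_convexHull ℝ _) hx1 hx2 hs ht hst, ?_⟩
        rw [map_add, map_smul, map_smul, dist_eq_norm]
        rw [dist_eq_norm] at hb1 hb2
        have h5 : s • b1 + t • b2 - (s • T x1 + t • T x2)
            = s • (b1 - T x1) + t • (b2 - T x2) := by
          rw [smul_sub, smul_sub]; abel
        rw [h5]
        calc ‖s • (b1 - T x1) + t • (b2 - T x2)‖
            ≤ ‖s • (b1 - T x1)‖ + ‖t • (b2 - T x2)‖ := norm_add_le _ _
          _ = s * ‖b1 - T x1‖ + t * ‖b2 - T x2‖ := by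
              rw [norm_smul, norm_smul, Real.norm_of_nonneg hs, Real.norm_of_nonneg ht]
          _ ≤ s * δ + t * δ := by gcongr
          _ = δ := by rw [← add_mul, hst, one_mul]
    obtain ⟨x, hx, hbx⟩ := hsub hb
    refine ⟨x, hx, ?_⟩
    calc dist yy (T x) ≤ dist yy b + dist b (T x) := dist_triangle _ _ _
      _ < δ + δ := by linarith
      _ = 2 * δ := by ring
  obtain ⟨x0, hx0, hd0⟩ := hlift 0
  -- the tail functionals tend to zero on x0
  have hev : ∀ᶠ k in atTop, evC (tailChain u hu hr k) x0 = 0 := by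
    have hsub : convexHull ℝ ((fun n => eX (u n)) '' Ici 0) ⊆
        {x | ∀ᶠ k in atTop, evC (tailChain u hu hr k) x = 0} := by
      refine convexHull_min ?_ ?_
      · rintro _ ⟨n, -, rfl⟩
        change ∀ᶠ k in atTop, evC (tailChain u hu hr k) (eX (u n)) = 0
        filter_upwards [eventually_gt_atTop n] with k hk
        rw [evC_eX]
        exact tailChain_of_lt u hu hr hk
      · intro x1 hx1 x2 hx2 s t _ _ _
        change ∀ᶠ k in atTop, evC (tailChain u hu hr k) (s • x1 + t • x2) = 0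
        have hx1' : ∀ᶠ k in atTop, evC (tailChain u hu hr k) x1 = 0 := hx1
        have hx2' : ∀ᶠ k in atTop, evC (tailChain u hu hr k) x2 = 0 := hx2
        filter_upwards [hx1', hx2'] with k h1 h2
        rw [map_add, map_smul, map_smul, h1, h2]
        simp
    exact hsub hx0
  obtain ⟨k, hk⟩ := hev.exists
  obtain ⟨xk, hxk, hdk⟩ := hlift k
  have hone : evC (tailChain u hu hr k) xk = 1 := by
    have hsub : convexHull ℝ ((fun n => eX (u n)) '' Ici k) ⊆
        {x | evC (tailChain u hu hr k) x = 1} := by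
      refine convexHull_min ?_ ?_
      · rintro _ ⟨n, hn, rfl⟩
        change evC (tailChain u hu hr k) (eX (u n)) = 1
        rw [evC_eX]
        exact tailChain_of_le u hu hr hn
      · intro x1 hx1 x2 hx2 s t _ _ hst
        change evC (tailChain u hu hr k) (s • x1 + t • x2) = 1
        have hx1' : evC (tailChain u hu hr k) x1 = 1 := hx1
        have hx2' : evC (tailChain u hu hr k) x2 = 1 := hx2
        rw [map_add, map_smul, map_smul, hx1', hx2']
        simpa using hst
    exact hsub hxk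
  have hdist : ‖T (xk - x0)‖ < 4 * δ := by
    rw [map_sub, ← dist_eq_norm]
    calc dist (T xk) (T x0) ≤ dist (T xk) yy + dist yy (T x0) := dist_triangle _ _ _
      _ < 2 * δ + 2 * δ := by rw [dist_comm (T xk) yy]; linarith
      _ = 4 * δ := by ring
  have hn : ‖xk - x0‖ < 1 / 2 := by
    have h6 := (hT (xk - x0)).trans_lt hdist
    rw [hδ] at h6
    by_contra h7
    push Not at h7
    have h8 : c * (1 / 2) ≤ c * ‖xk - x0‖ := by gcongr
    linarith
  have habs := abs_evC_le (tailChain u hu hr k) (xk - x0)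
  rw [map_sub, hone, hk] at habs
  norm_num at habs
  linarith

end Pool.Agent.H41.SemiEbMA
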